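import Pool.Agent.SYL2.Final

set_option autoImplicit false

/-!
# MP_83394c_al: the character table of a p-solvable group decides whether a Sylow p-subgroup
# has class two
-/

namespace Pool.Agent.Results.MP_83394c_al.PSolvableClassTwo

/-- `G` is `p`-solvable: there is a finite series of normal subgroups of `G` from `1` to `G`, each
of whose factors is a `p`-group or a `p'`-group. -/
def PSolvable (p : ℕ) (G : Type) [Group G] : Prop :=
  ∃ (n : ℕ) (f : ℕ → Subgroup G), f 0 = ⊥ ∧ f n = ⊤ ∧ (∀ i, (f i).Normal) ∧
    (∀ i, f i ≤ f (i + 1)) ∧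
    ∀ i, (∃ k, (f i).relIndex (f (i + 1)) = p ^ k) ∨ ((f i).relIndex (f (i + 1))).Coprime p

/-- If two finite groups `G` and `H` have the same complex character table, `p` is a prime, and
`G` is solvable, or `p` is odd and `G` is `p`-solvable, then a Sylow `p`-subgroup of `G` has
nilpotency class exactly two if and only if a Sylow `p`-subgroup of `H` has. -/
theorem result :
    ∀ (G H : Type) [Group G] [Group H] [Finite G] [Finite H],
      (∃ e : ConjClasses G ≃ ConjClasses H,
        (∀ V : FDRep ℂ G, CategoryTheory.Simple V →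
          ∃ W : FDRep ℂ H, CategoryTheory.Simple W ∧
            ∀ (g : G) (h : H), e (ConjClasses.mk g) = ConjClasses.mk h →
              V.character g = W.character h) ∧
        (∀ W : FDRep ℂ H, CategoryTheory.Simple W →
          ∃ V : FDRep ℂ G, CategoryTheory.Simple V ∧
            ∀ (g : G) (h : H), e (ConjClasses.mk g) = ConjClasses.mk h →
              V.character g = W.character h)) →
      ∀ p : ℕ, p.Prime → (Group.IsSolvable G ∨ (p ≠ 2 ∧ PSolvable p G)) →
        ∀ (P : Sylow p G) (Q : Sylow p H),
        ((Subgroup.upperCentralSeries (↥(P : Subgroup G)) 2 = ⊤ ∧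
            Subgroup.upperCentralSeries (↥(P : Subgroup G)) 1 ≠ ⊤) ↔
          (Subgroup.upperCentralSeries (↥(Q : Subgroup H)) 2 = ⊤ ∧
            Subgroup.upperCentralSeries (↥(Q : Subgroup H)) 1 ≠ ⊤)) :=
  SYL2.final

end Pool.Agent.Results.MP_83394c_al.PSolvableClassTwo
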